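import Pool.Agent.Helper913.EPatA

/-!
# Telltale candidates on quasi-terminal-free patterns over five or more letters

The pattern is obtained from the pattern of `Pool.Agent.Helper913.EPatA` by merging neighbouring
variables; it is morphically primitive, and every telltale candidate for the last of its square
variables is substantially ambiguous.
-/

set_option autoImplicit false

namespace Pool.Agent.Results.MP_0fc137_lc.AllAmbiguous

open Pool.Agent.Helper913.EPat

/-! ### Definitions -/

/-- `α` is a pattern in which at least two letters do not occur. -/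
def QuasiTerminalFree {V S : Type} (α : List (V ⊕ S)) : Prop :=
  ∃ a b : S, a ≠ b ∧ Sum.inr a ∉ α ∧ Sum.inr b ∉ α

/-- The image of a pattern under the substitution with values `σ` on the variables (letters are
fixed). -/
def subst {V S : Type} (σ : V → List S) (α : List (V ⊕ S)) : List S :=
  α.flatMap (Sum.elim σ (fun a => [a]))

/-- The image of a pattern under the morphism of patterns with values `φ` on the variables
(letters are fixed). -/
def morph {V S : Type} (φ : V → List (V ⊕ S)) (α : List (V ⊕ S)) : List (V ⊕ S) :=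
  α.flatMap (Sum.elim φ (fun a => [Sum.inr a]))

/-- Morphic primitivity. -/
def MorphicallyPrimitive {V S : Type} (α : List (V ⊕ S)) : Prop :=
  ¬ ∃ (β : List (V ⊕ S)) (φ ψ : V → List (V ⊕ S)),
    β.length < α.length ∧ morph φ α = β ∧ morph ψ β = α

/-- The word of the variables of a pattern. -/
def tf {V S : Type} (α : List (V ⊕ S)) : List V := α.filterMap (Sum.elim some (fun _ => none))

/-- `σ` is a telltale candidate for the variable `j` of `α`: some letter `A` occurs exactly once in
`σ(j)`, and as often in `σ(tf(α))` as `j` occurs in `α` (equivalently, in `tf(α)`). -/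
def TelltaleCandidate {V S : Type} [DecidableEq V] [DecidableEq S] (σ : V → List S) (j : V) (α : List (V ⊕ S)) :
    Prop :=
  ∃ A : S, (σ j).count A = 1 ∧ ((tf α).flatMap σ).count A = (tf α).count j

/-- `σ` is substantially ambiguous for `j` in `α`. -/
def SubstantiallyAmbiguous {V S : Type} (σ : V → List S) (j : V) (α : List (V ⊕ S)) : Prop :=
  ∃ τ : V → List S, subst τ α = subst σ α ∧ τ j = []

/-! ### The pattern -/

section
variable {S : Type}

/-- The merged pattern from block `i` on, with `r` blocks. -/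
def pt (n : ℕ) (T : ℕ → S) : ℕ → ℕ → List (Vr ⊕ S)
  | i, 0 => [vv i 6]
  | i, r + 1 => vv i 6 :: Sum.inr (T i) :: (B1 n i ++ Sum.inr (T (i + 1)) :: vv i 7 ::
      Sum.inr (T i) :: (B2 n i ++ Sum.inr (T (i + 1)) :: pt n T (i + 1) r))

/-- The splitting of the merged variables. -/
def ph (n : ℕ) : Vr → List (Vr ⊕ S)
  | Sum.inl j => [Sum.inl (Sum.inl j)]
  | Sum.inr (i, 6) => (if i = 0 then [] else [vv (i - 1) 9]) ++ (if i < n then [vv i 6] else [])
  | Sum.inr (i, 7) => [vv i 7, vv i 8]
  | Sum.inr (i, c) => [vv i c]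

theorem msub_Y (n : ℕ) : msub (ph (S := S) n) Y = Y := by
  simp [Y, vy, ph]

theorem msub_hl (n i : ℕ) : msub (ph (S := S) n) (hl n i) = hl n i := by
  unfold hl
  split_ifs <;> simp [vv, ph]

theorem msub_uu (n i : ℕ) : msub (ph (S := S) n) (uu i) = uu i := by
  unfold uu
  split_ifs
  · rfl
  · simp [vv, ph, msub_Y]

theorem msub_B1 (n i : ℕ) : msub (ph (S := S) n) (B1 n i) = B1 n i := by
  simp [B1, stuff, vv, ph, msub_Y, msub_hl, msub_uu]

theorem msub_B2 (n i : ℕ) : msub (ph (S := S) n) (B2 n i) = B2 n i := by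
  simp [B2, stuff, vv, ph, msub_Y, msub_hl, msub_uu]

theorem msub_pt (n : ℕ) (T : ℕ → S) : ∀ (r i : ℕ), i + r = n →
    msub (ph n) (pt n T i r) =
      (if i = 0 then [] else [vv (i - 1) 9]) ++ (List.range' i r).flatMap (bp n T) := by
  intro r
  induction r with
  | zero =>
    intro i hi
    simp only [pt, msub, List.flatMap_cons, List.flatMap_nil, vv, Sum.elim_inl, ph]
    rw [if_neg (show ¬ i < n by omega)]
    simp [vv]
  | succ r ih =>
    intro i hi
    have h := ih (i + 1) (by omega)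
    rw [if_neg (by omega)] at h
    rw [List.range'_succ, List.flatMap_cons, pt]
    have e6 : msub (ph (S := S) n) [vv i 6] = (if i = 0 then [] else [vv (i - 1) 9]) ++ [vv i 6] := by
      simp only [msub, List.flatMap_cons, List.flatMap_nil, vv, Sum.elim_inl, ph]
      rw [if_pos (show i < n by omega)]
      simp [vv]
    have e7 : msub (ph (S := S) n) [vv i 7] = [vv i 7, vv i 8] := by
      simp [vv, ph]
    have split6 : ∀ l : List (Vr ⊕ S), msub (ph (S := S) n) (vv i 6 :: l) =
        (if i = 0 then [] else [vv (i - 1) 9]) ++ [vv i 6] ++ msub (ph n) l := by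
      intro l
      rw [← e6, ← msub_append]
      rfl
    have split7 : ∀ l : List (Vr ⊕ S), msub (ph (S := S) n) (vv i 7 :: l) =
        [vv i 7, vv i 8] ++ msub (ph n) l := by
      intro l
      rw [← e7, ← msub_append]
      rfl
    rw [split6, msub_inr, msub_append, msub_inr, split7, msub_inr, msub_append, msub_inr, h,
      msub_B1, msub_B2]
    simp [bp]

theorem msub_pt_al (n : ℕ) (T : ℕ → S) : msub (ph n) (pt n T 0 n) = al n T := by
  rw [msub_pt n T n 0 (by omega)]
  simp [al, List.range_eq_range']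

/-- The substitution of the split pattern. -/
def spl (σ : Vr → List S) : Vr → List S
  | Sum.inl j => σ (Sum.inl j)
  | Sum.inr (i, 6) => if i = 0 then σ (Sum.inr (0, 6)) else []
  | Sum.inr (_, 8) => []
  | Sum.inr (i, 9) => σ (Sum.inr (i + 1, 6))
  | Sum.inr (i, c) => σ (Sum.inr (i, c))

/-- The variables of the pattern. -/
inductive Vo (n : ℕ) : Vr → Prop
  | y (j : Fin 3) : Vo n (Sum.inl j)
  | w (i : ℕ) (h : i ≤ n) : Vo n (Sum.inr (i, 6))
  | m (i : ℕ) (h : i < n) : Vo n (Sum.inr (i, 7))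
  | a (i c : ℕ) (h : i < n) (hc : c < 4) : Vo n (Sum.inr (i, c))
  | v4 (i : ℕ) (hi : 0 < i) (h : i < n) : Vo n (Sum.inr (i, 4))
  | v5 (i : ℕ) (hi : 0 < i) (h : i < n) : Vo n (Sum.inr (i, 5))

theorem vo_Y {n : ℕ} {v : Vr} (h : Sum.inl v ∈ (Y : List (Vr ⊕ S))) : Vo n v := by
  simp only [Y, vy, List.mem_cons, Sum.inl.injEq, List.not_mem_nil, or_false] at h
  rcases h with h | h | h | h | h | h <;> subst h <;> exact Vo.y _

theorem vo_hl {n i : ℕ} (hi : i < n) {v : Vr}
    (h : Sum.inl v ∈ (hl n (i + 1) : List (Vr ⊕ S))) : Vo n v := by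
  unfold hl at h
  split_ifs at h with h1
  · simp at h
  · simp only [vv, List.mem_singleton, Sum.inl.injEq] at h
    subst h
    exact Vo.v5 _ (by omega) (by omega)

theorem vo_uu {n i : ℕ} (hi : i < n) {v : Vr} (h : Sum.inl v ∈ (uu i : List (Vr ⊕ S))) :
    Vo n v := by
  unfold uu at h
  split_ifs at h with h1
  · simp at h
  · simp only [vv, List.mem_cons, List.mem_append, Sum.inl.injEq, List.not_mem_nil,
      or_false] at h
    rcases h with h | h | h | h
    · subst h; exact Vo.v4 _ (by omega) hi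
    · exact vo_Y h
    · subst h; exact Vo.v5 _ (by omega) hi
    · subst h; exact Vo.v4 _ (by omega) hi

theorem vo_stuff {n i : ℕ} (hi : i < n) {v : Vr}
    (h : Sum.inl v ∈ (stuff n i : List (Vr ⊕ S))) : Vo n v := by
  unfold stuff at h
  rw [List.mem_append, List.mem_append] at h
  rcases h with h | h | h
  · exact vo_uu hi h
  · exact vo_Y h
  · exact vo_hl hi h

theorem vo_B1 {n i : ℕ} (hi : i < n) {v : Vr} (h : Sum.inl v ∈ (B1 n i : List (Vr ⊕ S))) :
    Vo n v := by
  simp only [B1, vv, List.mem_cons, List.mem_append, Sum.inl.injEq, List.not_mem_nil,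
      or_false] at h
  rcases h with h | h | h | h | h
  · subst h; exact Vo.a _ _ hi (by omega)
  · subst h; exact Vo.a _ _ hi (by omega)
  · subst h; exact Vo.a _ _ hi (by omega)
  · exact vo_stuff hi h
  · subst h; exact Vo.a _ _ hi (by omega)

theorem vo_B2 {n i : ℕ} (hi : i < n) {v : Vr} (h : Sum.inl v ∈ (B2 n i : List (Vr ⊕ S))) :
    Vo n v := by
  simp only [B2, vv, List.mem_cons, List.mem_append, Sum.inl.injEq, List.not_mem_nil,
      or_false] at h
  rcases h with h | h | h | h | h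
  · subst h; exact Vo.a _ _ hi (by omega)
  · exact vo_stuff hi h
  · subst h; exact Vo.a _ _ hi (by omega)
  · subst h; exact Vo.a _ _ hi (by omega)
  · subst h; exact Vo.a _ _ hi (by omega)

theorem vo_pt {n : ℕ} {T : ℕ → S} : ∀ (r i : ℕ), i + r = n → ∀ {v : Vr},
    Sum.inl v ∈ pt n T i r → Vo n v := by
  intro r
  induction r with
  | zero =>
    intro i hi v h
    simp only [pt, vv, List.mem_singleton, Sum.inl.injEq] at h
    subst h
    exact Vo.w _ (by omega)
  | succ r ih =>
    intro i hi v h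
    simp only [pt, List.mem_cons, List.mem_append] at h
    rcases h with h | h | h | h | h | h | h | h | h
    · simp only [vv, Sum.inl.injEq] at h; subst h; exact Vo.w _ (by omega)
    · simp at h
    · exact vo_B1 (by omega) h
    · simp at h
    · simp only [vv, Sum.inl.injEq] at h; subst h; exact Vo.m _ (by omega)
    · simp at h
    · exact vo_B2 (by omega) h
    · simp at h
    · exact ih (i + 1) (by omega) h

theorem app_spl {n : ℕ} (hn : 0 < n) (σ : Vr → List S) {v : Vr} (h : Vo n v) :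
    app (spl σ) (ph n v) = σ v := by
  cases h with
  | y j => simp [ph, spl]
  | w i h =>
    simp only [ph]
    rw [app_append]
    rcases Nat.eq_zero_or_pos i with rfl | hi
    · rw [if_pos rfl, if_pos hn]
      simp [vv, spl]
    · rw [if_neg (by omega)]
      have e : i - 1 + 1 = i := by omega
      split_ifs with h1
      · simp only [vv, app_inl, app_nil, List.append_nil, spl, e]
        rw [if_neg (by omega), List.append_nil]
      · simp only [vv, app_inl, app_nil, List.append_nil, spl, e]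
  | m i h => simp [ph, spl, vv]
  | a i c h hc =>
    have : c = 0 ∨ c = 1 ∨ c = 2 ∨ c = 3 := by omega
    rcases this with rfl | rfl | rfl | rfl <;> simp [ph, spl, vv]
  | v4 i hi h => simp [ph, spl, vv]
  | v5 i hi h => simp [ph, spl, vv]

/-- Ambiguity if the image of `Y` contains a letter of the pattern. -/
theorem amb_letter {n : ℕ} (hn : 0 < n) (T : ℕ → S) (σ : Vr → List S) (j : ℕ) (hj : j ≤ n)
    (h : T j ∈ app σ Y) :
    ∃ τ : Vr → List S, app τ (pt n T 0 n) = app σ (pt n T 0 n) ∧ τ (Sum.inl 2) = [] := by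
  have hY : app (spl σ) Y = app σ Y := by simp [Y, vy, spl]
  have hal : app (spl σ) (al n T) = app σ (pt n T 0 n) := by
    rw [← msub_pt_al, app_msub]
    exact app_congr fun v hv => app_spl hn σ (vo_pt n 0 (by omega) hv)
  rw [← hY] at h
  obtain ⟨P, Q, hPQ⟩ := List.append_of_mem h
  have h1 := sg_case n T (spl σ) j P Q hj hPQ
  refine ⟨fun v => app (sg n T (spl σ) j (app (spl σ) Y) P Q) (ph n v), ?_, ?_⟩
  · rw [← app_msub, msub_pt_al, h1, hal]
  · simp [ph, sg]

theorem app_uu' (σ : Vr → List S) (i : ℕ) :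
    app σ (uu i) = if i = 0 then [] else
      σ (Sum.inr (i, 4)) ++ (app σ Y ++ (σ (Sum.inr (i, 5)) ++ σ (Sum.inr (i, 4)))) := by
  unfold uu
  split_ifs <;> simp [vv]

/-- Only the image of `Y` matters. -/
theorem app_pt_congr {n : ℕ} {T : ℕ → S} {σ τ : Vr → List S} (h0 : app τ Y = app σ Y)
    (h : ∀ x, τ (Sum.inr x) = σ (Sum.inr x)) : ∀ (r i : ℕ),
    app τ (pt n T i r) = app σ (pt n T i r) := by
  have hh : ∀ i, app τ (hl n i) = app σ (hl n i) := by
    intro i; unfold hl; split_ifs <;> simp [vv, h]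
  have hu : ∀ i, app τ (uu i) = app σ (uu i) := by
    intro i
    rw [app_uu', app_uu', h0, h, h]
  have h1 : ∀ i, app τ (B1 n i) = app σ (B1 n i) := by
    intro i; simp [B1, stuff, vv, h, h0, hh, hu]
  have h2 : ∀ i, app τ (B2 n i) = app σ (B2 n i) := by
    intro i; simp [B2, stuff, vv, h, h0, hh, hu]
  intro r
  induction r with
  | zero => intro i; simp [pt, vv, h]
  | succ r ih => intro i; simp [pt, vv, h, h1, h2, ih]

/-! ### Rigidity -/

theorem split_gen {E : Type} (p : E → Prop) {A B R R' : List E} {x x' : E}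
    (hA : ∀ y ∈ A, ¬ p y) (hB : ∀ y ∈ B, ¬ p y) (hx : p x) (hx' : p x')
    (h : A ++ x :: R = B ++ x' :: R') : A = B ∧ x = x' ∧ R = R' := by
  induction A generalizing B with
  | nil =>
    rcases B with _ | ⟨b, B⟩
    · simpa using h
    · exfalso
      rw [List.nil_append, List.cons_append, List.cons.injEq] at h
      exact hB b (by simp) (h.1 ▸ hx)
  | cons a A ih =>
    rcases B with _ | ⟨b, B⟩
    · exfalso
      rw [List.nil_append, List.cons_append, List.cons.injEq] at h
      exact hA a (by simp) (h.1 ▸ hx')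
    · rw [List.cons_append, List.cons_append, List.cons.injEq] at h
      obtain ⟨rfl, h2⟩ := h
      obtain ⟨h3, h4, h5⟩ := ih (fun y hy => hA y (by simp [hy])) (fun y hy => hB y (by simp [hy])) h2
      exact ⟨by rw [h3], h4, h5⟩

theorem split_at' {E : Type} {A B R R' : List E} {x : E} (hA : x ∉ A) (hB : x ∉ B)
    (h : A ++ x :: R = B ++ x :: R') : A = B ∧ R = R' := by
  obtain ⟨h1, -, h2⟩ := split_gen (· = x) (fun y hy hyx => hA (hyx ▸ hy))
    (fun y hy hyx => hB (hyx ▸ hy)) rfl rfl h
  exact ⟨h1, h2⟩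

theorem lemA {E : Type} {a b c d g G : List E} {v0 v1 v2 v3 : E}
    (h20 : v2 ≠ v0) (h21 : v2 ≠ v1) (h23 : v2 ≠ v3) (h30 : v3 ≠ v0) (h31 : v3 ≠ v1)
    (h2G : v2 ∉ G) (h3G : v3 ∉ G)
    (h1 : a ++ (b ++ (b ++ (g ++ c))) = v0 :: v2 :: v2 :: (G ++ [v1]))
    (h2 : a ++ (g ++ (d ++ (d ++ c))) = v0 :: (G ++ [v3, v3, v1])) :
    a = [v0] ∧ b = [v2] ∧ g = G ∧ d = [v3] ∧ c = [v1] := by
  classical
  have hn2 : v2 ∉ a ++ (g ++ (d ++ (d ++ c))) := by
    rw [h2]; simp [h20, h21, h23, h2G]
  have hn3 : v3 ∉ a ++ (b ++ (b ++ (g ++ c))) := by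
    rw [h1]; simp [h30, h31, h23.symm, h3G]
  simp only [List.mem_append, not_or] at hn2 hn3
  have c2 := congrArg (List.count v2) h1
  have c3 := congrArg (List.count v3) h2
  have z1 : a.count v2 = 0 := List.count_eq_zero.2 hn2.1
  have z2 : g.count v2 = 0 := List.count_eq_zero.2 hn2.2.1
  have z3 : c.count v2 = 0 := List.count_eq_zero.2 hn2.2.2.2.2
  have z4 : G.count v2 = 0 := List.count_eq_zero.2 h2G
  have y1 : a.count v3 = 0 := List.count_eq_zero.2 hn3.1
  have y2 : g.count v3 = 0 := List.count_eq_zero.2 hn3.2.2.2.1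
  have y3 : c.count v3 = 0 := List.count_eq_zero.2 hn3.2.2.2.2
  have y4 : G.count v3 = 0 := List.count_eq_zero.2 h3G
  simp only [List.count_append, List.count_cons, z1, z2, z3, z4, y1, y2, y3, y4,
    List.count_nil, beq_iff_eq, h20.symm, h21.symm, h30.symm, h31.symm, if_false, if_true] at c2 c3
  have hb : b.count v2 = 1 := by omega
  have hd : d.count v3 = 1 := by omega
  have mb : v2 ∈ b := List.count_pos_iff.1 (by omega)
  have md : v3 ∈ d := List.count_pos_iff.1 (by omega)
  obtain ⟨b', b'', rfl, hb'⟩ := List.eq_append_cons_of_mem mb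
  obtain ⟨d', d'', rfl, hd'⟩ := List.eq_append_cons_of_mem md
  have hb'' : v2 ∉ b'' := by
    rw [List.count_append, List.count_cons_self] at hb
    exact List.count_eq_zero.1 (by omega)
  have hd'' : v3 ∉ d'' := by
    rw [List.count_append, List.count_cons_self] at hd
    exact List.count_eq_zero.1 (by omega)
  have e1 : (a ++ b') ++ v2 :: (b'' ++ ((b' ++ v2 :: b'') ++ (g ++ c))) =
      [v0] ++ v2 :: (v2 :: (G ++ [v1])) := by
    rw [List.singleton_append, ← h1]; simp
  obtain ⟨e2, e3⟩ := split_at' (by simp [hn2.1, hb']) (by simp [h20]) e1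
  have e4 : (b'' ++ b') ++ v2 :: (b'' ++ (g ++ c)) = [] ++ v2 :: (G ++ [v1]) := by
    rw [List.nil_append, ← e3]; simp
  obtain ⟨e5, e6⟩ := split_at' (by simp [hb', hb'']) (by simp) e4
  obtain ⟨rfl, rfl⟩ := List.append_eq_nil_iff.1 e5
  rw [List.append_nil] at e2
  subst e2
  rw [List.nil_append] at e6
  have f1 : ([v0] ++ g ++ d') ++ v3 :: (d'' ++ ((d' ++ v3 :: d'') ++ c)) =
      (v0 :: G) ++ v3 :: (v3 :: [v1]) := by
    have : (v0 :: G) ++ v3 :: (v3 :: [v1]) = v0 :: (G ++ [v3, v3, v1]) := by simp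
    rw [this, ← h2]; simp
  obtain ⟨f2, f3⟩ := split_at' (by simp [h30, hn3.2.2.2.1, hd']) (by simp [h30, h3G]) f1
  have f4 : (d'' ++ d') ++ v3 :: (d'' ++ c) = [] ++ v3 :: [v1] := by
    rw [List.nil_append, ← f3]; simp
  obtain ⟨f5, f6⟩ := split_at' (by simp [hd', hd'']) (by simp) f4
  obtain ⟨rfl, rfl⟩ := List.append_eq_nil_iff.1 f5
  refine ⟨rfl, rfl, ?_, rfl, ?_⟩
  · simpa using f2
  · simpa using f6

theorem lemB {E : Type} {x y z : List E} {u v w : E} (huv : u ≠ v) (hvw : v ≠ w)
    (h : x ++ (x ++ (y ++ (y ++ (z ++ z)))) = [u, u, v, v, w, w]) :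
    x ≠ [] ∧ y ≠ [] ∧ z ≠ [] := by
  have hl := congrArg List.length h
  simp only [List.length_append, List.length_cons, List.length_nil] at hl
  rcases x with _ | ⟨x1, _ | ⟨x2, _ | ⟨x3, _ | ⟨x4, x⟩⟩⟩⟩ <;>
  rcases y with _ | ⟨y1, _ | ⟨y2, _ | ⟨y3, _ | ⟨y4, y⟩⟩⟩⟩ <;>
  rcases z with _ | ⟨z1, _ | ⟨z2, _ | ⟨z3, _ | ⟨z4, z⟩⟩⟩⟩ <;>
  first
  | (exfalso; simp only [List.length_cons, List.length_nil] at hl; omega)
  | (simp only [List.cons_append, List.nil_append, List.cons.injEq] at h; grind)

/-- terminal-free words -/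
def TF (l : List (Vr ⊕ S)) : Prop := ∀ a, Sum.inr a ∉ l

theorem msub_terminals (χ : Vr → List (Vr ⊕ S)) (α : List (Vr ⊕ S)) :
    α.countP Sum.isRight ≤ (msub χ α).countP Sum.isRight ∧
      ((∃ v, Sum.inl v ∈ α ∧ ¬ TF (χ v)) →
        α.countP Sum.isRight < (msub χ α).countP Sum.isRight) := by
  induction α with
  | nil => simp
  | cons x α ih =>
    obtain ⟨h1, h2⟩ := ih
    rcases x with v | a
    · rw [msub_inl, List.countP_append, List.countP_cons_of_neg (by simp)]
      refine ⟨by omega, ?_⟩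
      rintro ⟨v', hv', hn⟩
      rcases List.mem_cons.1 hv' with he | hv'
      · have he : v' = v := by simpa using he
        subst he
        have : 0 < (χ v').countP Sum.isRight := by
          rw [List.countP_pos_iff]
          unfold TF at hn
          push Not at hn
          obtain ⟨a, ha⟩ := hn
          exact ⟨_, ha, rfl⟩
        omega
      · have := h2 ⟨v', hv', hn⟩
        omega
    · rw [msub_inr, List.countP_cons_of_pos (by simp), List.countP_cons_of_pos (by simp)]
      refine ⟨by omega, ?_⟩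
      rintro ⟨v', hv', hn⟩
      have hv' : Sum.inl v' ∈ α := by simpa using hv'
      have := h2 ⟨v', hv', hn⟩
      omega

theorem tf_of_fix {χ : Vr → List (Vr ⊕ S)} {α : List (Vr ⊕ S)} (h : msub χ α = α) {v : Vr}
    (hv : Sum.inl v ∈ α) : TF (χ v) := by
  by_contra hn
  have := (msub_terminals χ α).2 ⟨v, hv, hn⟩
  rw [h] at this
  omega

theorem tf_msub {χ : Vr → List (Vr ⊕ S)} {A : List (Vr ⊕ S)} (hA : TF A)
    (h : ∀ v, Sum.inl v ∈ A → TF (χ v)) : TF (msub χ A) := by
  intro a ha
  obtain ⟨x, hx, hax⟩ := List.mem_flatMap.1 ha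
  rcases x with v | b
  · exact h v hx a hax
  · exact hA b hx

theorem block {χ : Vr → List (Vr ⊕ S)} {A R : List (Vr ⊕ S)} {t : S} (hA : TF A)
    (hv : ∀ v, Sum.inl v ∈ A → TF (χ v))
    (h : msub χ (A ++ Sum.inr t :: R) = A ++ Sum.inr t :: R) :
    msub χ A = A ∧ msub χ R = R := by
  rw [msub_append, msub_inr] at h
  have h1 := tf_msub hA hv
  obtain ⟨h2, -, h3⟩ := split_gen (fun x : Vr ⊕ S => x.isRight = true)
    (fun y hy hr => by rcases y with v | a <;> simp_all [TF])
    (fun y hy hr => by rcases y with v | a <;> simp_all [TF]) rfl rfl h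
  exact ⟨h2, h3⟩

theorem tf_Y : TF (Y : List (Vr ⊕ S)) := by
  intro a; simp [Y, vy]

theorem tf_hl (n i : ℕ) : TF (hl n i : List (Vr ⊕ S)) := by
  intro a; unfold hl; split_ifs <;> simp [vv]

theorem tf_uu (i : ℕ) : TF (uu i : List (Vr ⊕ S)) := by
  intro a
  unfold uu
  split_ifs
  · simp
  · simp [vv, tf_Y a]

theorem tf_B1 (n i : ℕ) : TF (B1 n i : List (Vr ⊕ S)) := by
  intro a
  simp [B1, stuff, vv, tf_Y a, tf_hl n (i + 1) a, tf_uu i a]

theorem tf_B2 (n i : ℕ) : TF (B2 n i : List (Vr ⊕ S)) := by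
  intro a
  simp [B2, stuff, vv, tf_Y a, tf_hl n (i + 1) a, tf_uu i a]

theorem decompose {n : ℕ} {T : ℕ → S} {χ : Vr → List (Vr ⊕ S)} : ∀ (r i : ℕ), i + r = n →
    (∀ v, Sum.inl v ∈ pt n T i r → TF (χ v)) → msub χ (pt n T i r) = pt n T i r →
    (∀ j, i ≤ j → j < n → msub χ [vv j 6] = [vv j 6] ∧ msub χ (B1 n j) = B1 n j ∧
      msub χ [vv j 7] = [vv j 7] ∧ msub χ (B2 n j) = B2 n j) ∧
      msub χ [vv n 6] = [vv n 6] := by
  intro r
  induction r with
  | zero =>
    intro i hi htf h
    have e : i = n := by omega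
    subst e
    exact ⟨fun j h1 h2 => absurd h2 (by omega), h⟩
  | succ r ih =>
    intro i hi htf h
    have hs : ∀ (l1 l2 : List (Vr ⊕ S)), (∀ x ∈ l1, x ∈ l2) →
        (∀ v, Sum.inl v ∈ l2 → TF (χ v)) → ∀ v, Sum.inl v ∈ l1 → TF (χ v) :=
      fun l1 l2 h1 h2 v hv => h2 v (h1 _ hv)
    have e1 : pt n T i (r + 1) = [vv i 6] ++ Sum.inr (T i) :: (B1 n i ++ Sum.inr (T (i + 1)) ::
        ([vv i 7] ++ Sum.inr (T i) :: (B2 n i ++ Sum.inr (T (i + 1)) :: pt n T (i + 1) r))) := by
      simp [pt]
    rw [e1] at h htf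
    obtain ⟨a1, a2⟩ := block (by intro a; simp [vv]) (hs _ _ (by
      intro x hx; exact List.mem_append_left _ hx) htf) h
    obtain ⟨b1, b2⟩ := block (tf_B1 n i) (hs _ _ (by
      intro x hx
      exact List.mem_append_right _ (List.mem_cons_of_mem _ (List.mem_append_left _ hx))) htf) a2
    obtain ⟨c1, c2⟩ := block (by intro a; simp [vv]) (hs _ _ (by
      intro x hx
      exact List.mem_append_right _ (List.mem_cons_of_mem _ (List.mem_append_right _
        (List.mem_cons_of_mem _ (List.mem_append_left _ hx))))) htf) b2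
    obtain ⟨d1, d2⟩ := block (tf_B2 n i) (hs _ _ (by
      intro x hx
      exact List.mem_append_right _ (List.mem_cons_of_mem _ (List.mem_append_right _
        (List.mem_cons_of_mem _ (List.mem_append_right _ (List.mem_cons_of_mem _
          (List.mem_append_left _ hx))))))) htf) c2
    obtain ⟨f1, f2⟩ := ih (i + 1) (by omega) (hs _ _ (by
      intro x hx
      exact List.mem_append_right _ (List.mem_cons_of_mem _ (List.mem_append_right _
        (List.mem_cons_of_mem _ (List.mem_append_right _ (List.mem_cons_of_mem _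
          (List.mem_append_right _ (List.mem_cons_of_mem _ hx)))))))) htf) d2
    refine ⟨fun j h1 h2 => ?_, f2⟩
    rcases Nat.eq_or_lt_of_le h1 with rfl | h3
    · exact ⟨a1, b1, c1, d1⟩
    · exact f1 j h3 h2

theorem vv_not_Y {i c : ℕ} : vv i c ∉ (Y : List (Vr ⊕ S)) := by
  simp [Y, vy, vv]

theorem vv_not_stuff {n i c : ℕ} (hc : c < 4) : vv i c ∉ (stuff n i : List (Vr ⊕ S)) := by
  unfold stuff uu hl
  split_ifs <;> simp [vv, Y, vy] <;> omega

theorem blk {n i : ℕ} {χ : Vr → List (Vr ⊕ S)} (h1 : msub χ (B1 n i) = B1 n i)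
    (h2 : msub χ (B2 n i) = B2 n i) :
    χ (Sum.inr (i, 0)) = [vv i 0] ∧ χ (Sum.inr (i, 2)) = [vv i 2] ∧
      msub χ (stuff n i) = stuff n i ∧ χ (Sum.inr (i, 3)) = [vv i 3] ∧
      χ (Sum.inr (i, 1)) = [vv i 1] := by
  have e1 : χ (Sum.inr (i, 0)) ++ (χ (Sum.inr (i, 2)) ++ (χ (Sum.inr (i, 2)) ++
      (msub χ (stuff n i) ++ χ (Sum.inr (i, 1))))) =
      vv i 0 :: vv i 2 :: vv i 2 :: (stuff n i ++ [vv i 1]) := by
    have : msub χ (B1 n i) = χ (Sum.inr (i, 0)) ++ (χ (Sum.inr (i, 2)) ++
      (χ (Sum.inr (i, 2)) ++ (msub χ (stuff n i) ++ χ (Sum.inr (i, 1))))) := by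
      simp [B1, vv]
    rw [← this, h1]
    rfl
  have e2 : χ (Sum.inr (i, 0)) ++ (msub χ (stuff n i) ++ (χ (Sum.inr (i, 3)) ++
      (χ (Sum.inr (i, 3)) ++ χ (Sum.inr (i, 1))))) =
      vv i 0 :: (stuff n i ++ [vv i 3, vv i 3, vv i 1]) := by
    have : msub χ (B2 n i) = χ (Sum.inr (i, 0)) ++ (msub χ (stuff n i) ++
      (χ (Sum.inr (i, 3)) ++ (χ (Sum.inr (i, 3)) ++ χ (Sum.inr (i, 1))))) := by
      simp [B2, vv]
    rw [← this, h2]
    rfl
  exact lemA (by simp [vv]) (by simp [vv]) (by simp [vv]) (by simp [vv]) (by simp [vv])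
    (vv_not_stuff (by omega)) (vv_not_stuff (by omega)) e1 e2

theorem lemC {E : Type} {a Z R R' : List E} {v4 v5 : E} (h45 : v4 ≠ v5) (hZ : v5 ∉ Z)
    (hR : v5 ∉ R') (h : (a ++ Z) ++ v5 :: (a ++ R) = (v4 :: Z) ++ v5 :: (v4 :: R')) :
    a = [v4] ∧ R = R' := by
  classical
  have hna : v5 ∉ a := by
    have hc := congrArg (List.count v5) h
    have z1 : Z.count v5 = 0 := List.count_eq_zero.2 hZ
    have z2 : R'.count v5 = 0 := List.count_eq_zero.2 hR
    simp only [List.count_append, List.count_cons, beq_iff_eq, h45, z1, z2, if_true,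
      if_false] at hc
    exact List.count_eq_zero.1 (by omega)
  obtain ⟨e7, e8⟩ := split_at' (by simp [hna, hZ]) (by simp [hZ, h45.symm]) h
  have e9 : a = [v4] := by
    have : a ++ Z = [v4] ++ Z := by rw [e7]; rfl
    exact List.append_cancel_right this
  rw [e9] at e8
  exact ⟨e9, by simpa using e8⟩

theorem claims {n : ℕ} {χ : Vr → List (Vr ⊕ S)}
    (h : ∀ i, i < n → msub χ (stuff n i) = stuff n i) : ∀ i, i < n →
    (msub χ Y ++ msub χ (hl n (i + 1)) = Y ++ hl n (i + 1)) ∧
      (0 < i → χ (Sum.inr (i, 4)) = [vv i 4]) := by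
  intro i
  induction i with
  | zero =>
    intro hi
    have := h 0 hi
    simp only [stuff, uu, if_true, List.nil_append, msub_append] at this
    exact ⟨this, fun h => absurd h (by omega)⟩
  | succ i ih =>
    intro hi
    obtain ⟨ih1, -⟩ := ih (by omega)
    have h0 := h (i + 1) hi
    have e5 : msub χ (hl n (i + 1)) = χ (Sum.inr (i + 1, 5)) := by
      unfold hl
      rw [if_neg (by omega)]
      simp [vv]
    have e5' : (hl n (i + 1) : List (Vr ⊕ S)) = [vv (i + 1) 5] := by
      unfold hl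
      rw [if_neg (by omega)]
    rw [e5, e5'] at ih1
    set a := χ (Sum.inr (i + 1, 4)) with ha
    set H := msub χ (hl n (i + 1 + 1)) with hH
    set g := msub χ Y with hg
    have e0 : msub χ (stuff n (i + 1)) = a ++ ((g ++ χ (Sum.inr (i + 1, 5))) ++ (a ++ (g ++ H))) := by
      unfold stuff uu
      rw [if_neg (by omega)]
      simp [vv, ha, hH, hg]
    have e0' : (stuff n (i + 1) : List (Vr ⊕ S)) =
        (vv (i + 1) 4 :: Y) ++ vv (i + 1) 5 :: (vv (i + 1) 4 :: (Y ++ hl n (i + 1 + 1))) := by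
      unfold stuff uu
      rw [if_neg (by omega)]
      simp
    rw [e0, e0', ih1] at h0
    have e6 : (a ++ Y) ++ vv (i + 1) 5 :: (a ++ (g ++ H)) =
        (vv (i + 1) 4 :: Y) ++ vv (i + 1) 5 :: (vv (i + 1) 4 :: (Y ++ hl n (i + 1 + 1))) := by
      rw [← h0]; simp
    have hne : (vv (i + 1) 5 : Vr ⊕ S) ∉ hl n (i + 1 + 1) := by
      unfold hl
      split_ifs <;> simp [vv]
    obtain ⟨e9, e8⟩ := lemC (by simp [vv]) vv_not_Y (by
      rw [List.mem_append, not_or]
      exact ⟨vv_not_Y, hne⟩) e6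
    exact ⟨e8, fun _ => e9⟩

theorem rigid {n : ℕ} (hn : 0 < n) {T : ℕ → S} {χ : Vr → List (Vr ⊕ S)}
    (h : msub χ (pt n T 0 n) = pt n T 0 n) {v : Vr} (hv : Vo n v) : χ v ≠ [] := by
  obtain ⟨h1, h2⟩ := decompose n 0 (by omega) (fun v hv => tf_of_fix h hv) h
  have hb := fun i (hi : i < n) => blk (h1 i (by omega) hi).2.1 (h1 i (by omega) hi).2.2.2
  have hc := claims (fun i hi => (hb i hi).2.2.1)
  have hY : msub χ Y = Y := by
    have := (hc (n - 1) (by omega)).1
    have e : n - 1 + 1 = n := by omega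
    rw [e] at this
    simpa [hl] using this
  cases hv with
  | y j =>
    have hY' : χ (Sum.inl 0) ++ (χ (Sum.inl 0) ++ (χ (Sum.inl 1) ++ (χ (Sum.inl 1) ++
        (χ (Sum.inl 2) ++ χ (Sum.inl 2))))) = [vy 0, vy 0, vy 1, vy 1, vy 2, vy 2] := by
      have : msub χ Y = χ (Sum.inl 0) ++ (χ (Sum.inl 0) ++ (χ (Sum.inl 1) ++ (χ (Sum.inl 1) ++
        (χ (Sum.inl 2) ++ χ (Sum.inl 2))))) := by
        simp [Y, vy]
      rw [← this, hY]
      rfl
    obtain ⟨k0, k1, k2⟩ := lemB (by simp [vy]) (by simp [vy]) hY'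
    fin_cases j
    · exact k0
    · exact k1
    · exact k2
  | w i hi =>
    have : msub χ [vv i 6] = [vv i 6] := by
      rcases Nat.lt_or_ge i n with h3 | h3
      · exact (h1 i (by omega) h3).1
      · have : i = n := by omega
        subst this
        exact h2
    intro h4
    simp [vv, h4] at this
  | m i hi =>
    have := (h1 i (by omega) hi).2.2.1
    intro h4
    simp [vv, h4] at this
  | a i c hi hc4 =>
    obtain ⟨k0, k2, -, k3, k1⟩ := hb i hi
    have : c = 0 ∨ c = 1 ∨ c = 2 ∨ c = 3 := by omega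
    rcases this with rfl | rfl | rfl | rfl
    · rw [k0]; simp
    · rw [k1]; simp
    · rw [k2]; simp
    · rw [k3]; simp
  | v4 i hi hin =>
    rw [(hc i hin).2 hi]; simp
  | v5 i hi hin =>
    have h3 := (hc (i - 1) (by omega)).1
    have e : i - 1 + 1 = i := by omega
    rw [e, hY] at h3
    have h4 := List.append_cancel_left h3
    intro h5
    unfold hl at h4
    rw [if_neg (by omega)] at h4
    simp [vv, h5] at h4

end

/-! ### The result -/

theorem letters {S : Type} {n : ℕ} {T : ℕ → S} : ∀ (r i : ℕ), i + r = n → ∀ {t : S},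
    Sum.inr t ∈ pt n T i r → ∃ j ≤ n, t = T j := by
  intro r
  induction r with
  | zero => intro i hi t h; simp [pt, vv] at h
  | succ r ih =>
    intro i hi t h
    simp only [pt, List.mem_cons, List.mem_append] at h
    rcases h with h | h | h | h | h | h | h | h | h
    · simp [vv] at h
    · exact ⟨i, by omega, by simpa using h⟩
    · exact absurd h (tf_B1 n i t)
    · exact ⟨i + 1, by omega, by simpa using h⟩
    · simp [vv] at h
    · exact ⟨i, by omega, by simpa using h⟩
    · exact absurd h (tf_B2 n i t)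
    · exact ⟨i + 1, by omega, by simpa using h⟩
    · exact ih (i + 1) (by omega) h

theorem msub_length {V V' S : Type} (φ : V → List (V' ⊕ S)) (α : List (V ⊕ S))
    (h : ∀ v, Sum.inl v ∈ α → φ v ≠ []) : α.length ≤ (msub φ α).length := by
  induction α with
  | nil => simp
  | cons x α ih =>
    have ih' := ih fun v hv => h v (List.mem_cons_of_mem _ hv)
    rcases x with v | a
    · rw [msub_inl, List.length_append, List.length_cons]
      have := List.length_pos_iff.2 (h v (by simp))
      omega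
    · rw [msub_inr, List.length_cons, List.length_cons]
      omega

theorem msub_map {V V' S : Type} (E : V → V') (g : V' ⊕ S → V ⊕ S)
    (hg : ∀ a, g (Sum.inr a) = Sum.inr a) (χ : V' → List (V' ⊕ S)) (α : List (V ⊕ S)) :
    msub (fun v => (χ (E v)).map g) α = (msub χ (α.map (Sum.map E id))).map g := by
  induction α with
  | nil => rfl
  | cons x α ih =>
    rcases x with v | a
    · simp [ih]
    · simp [ih, hg]

theorem app_map {V V' S : Type} (E : V → V') (σ : V' → List S) (α : List (V ⊕ S)) :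
    app σ (α.map (Sum.map E id)) = app (fun v => σ (E v)) α := by
  induction α with
  | nil => rfl
  | cons x α ih =>
    rcases x with v | a
    · simp [ih]
    · simp [ih]

theorem count_lemma {V S : Type} [DecidableEq V] [DecidableEq S] {σ : V → List S} {A : S} {j : V}
    (hj : (σ j).count A = 1) (l : List V) : l.count j ≤ (l.flatMap σ).count A ∧
      ((∃ k ∈ l, k ≠ j ∧ A ∈ σ k) → l.count j < (l.flatMap σ).count A) := by
  induction l with
  | nil => simp
  | cons x l ih =>
    obtain ⟨h1, h2⟩ := ih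
    rw [List.flatMap_cons, List.count_append]
    by_cases hx : x = j
    · subst hx
      rw [List.count_cons_self, hj]
      refine ⟨by omega, ?_⟩
      rintro ⟨k, hk, hkj, hA⟩
      rcases List.mem_cons.1 hk with rfl | hk
      · exact absurd rfl hkj
      · have := h2 ⟨k, hk, hkj, hA⟩
        omega
    · rw [List.count_cons_of_ne hx]
      refine ⟨by omega, ?_⟩
      rintro ⟨k, hk, hkj, hA⟩
      rcases List.mem_cons.1 hk with rfl | hk
      · have := List.count_pos_iff.2 hA
        omega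
      · have := h2 ⟨k, hk, hkj, hA⟩
        omega

theorem mem_tf {V S : Type} {α : List (V ⊕ S)} {v : V} : v ∈ tf α ↔ Sum.inl v ∈ α := by
  unfold tf
  rw [List.mem_filterMap]
  constructor
  · rintro ⟨x, hx, h⟩
    rcases x with w | a
    · simp only [Sum.elim_inl, Option.some.injEq] at h
      rw [← h]; exact hx
    · simp at h
  · intro h
    exact ⟨_, h, rfl⟩

theorem mem_app {V S : Type} {σ : V → List S} {α : List (V ⊕ S)} {v : V}
    (hv : Sum.inl v ∈ α) {a : S} (ha : a ∈ σ v) : a ∈ app σ α :=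
  List.mem_flatMap.2 ⟨Sum.inl v, hv, ha⟩

theorem y_mem {S : Type} {n : ℕ} {T : ℕ → S} (hn : 0 < n) (j : Fin 3) :
    Sum.inl (Sum.inl j) ∈ pt n T 0 n := by
  obtain ⟨m, rfl⟩ := Nat.exists_eq_succ_of_ne_zero hn.ne'
  have h1 : (Sum.inl (Sum.inl j) : Vr ⊕ S) ∈ (Y : List (Vr ⊕ S)) := by
    fin_cases j <;> simp [Y, vy]
  have h2 : (Sum.inl (Sum.inl j) : Vr ⊕ S) ∈ (stuff (m + 1) 0 : List (Vr ⊕ S)) := by
    unfold stuff
    exact List.mem_append_right _ (List.mem_append_left _ h1)
  have h3 : (Sum.inl (Sum.inl j) : Vr ⊕ S) ∈ (B1 (m + 1) 0 : List (Vr ⊕ S)) := by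
    unfold B1
    exact List.mem_cons_of_mem _ (List.mem_cons_of_mem _ (List.mem_cons_of_mem _
      (List.mem_append_left _ h2)))
  simp only [pt, List.mem_cons, List.mem_append]
  tauto

/-- **Main theorem.** Over every finite alphabet with at least five letters there are a
morphically primitive quasi-terminal-free pattern `α` and a variable `i` of `α` such that every
telltale candidate for `i` is substantially ambiguous for `i` in `α`. -/
theorem result (S : Type) [Fintype S] [DecidableEq S] (hS : 5 ≤ Fintype.card S) :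
    ∃ (α : List (ℕ ⊕ S)) (i : ℕ), Sum.inl i ∈ α ∧ QuasiTerminalFree α ∧
      MorphicallyPrimitive α ∧
      ∀ σ : ℕ → List S, TelltaleCandidate σ i α → SubstantiallyAmbiguous σ i α := by
  obtain ⟨n, hn⟩ : ∃ n, Fintype.card S = n + 3 := ⟨Fintype.card S - 3, by omega⟩
  have hn0 : 0 < n := by omega
  let e : S ≃ Fin (n + 3) := Fintype.equivFinOfCardEq hn
  let T : ℕ → S := fun i => e.symm (Fin.ofNat (n + 3) i)
  let a : S := e.symm ⟨n + 1, by omega⟩
  let b : S := e.symm ⟨n + 2, by omega⟩
  have hT : ∀ j, j ≤ n → (e (T j) : ℕ) = j := by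
    intro j hj
    simp only [T, Equiv.apply_symm_apply, Fin.ofNat]
    exact Nat.mod_eq_of_lt (by omega)
  have ha : (e a : ℕ) = n + 1 := by simp [a]
  have hb : (e b : ℕ) = n + 2 := by simp [b]
  have hall : ∀ t : S, (∃ j ≤ n, t = T j) ∨ t = a ∨ t = b := by
    intro t
    have h1 := (e t).2
    rcases Nat.lt_or_ge (e t : ℕ) (n + 1) with h | h
    · refine Or.inl ⟨(e t : ℕ), by omega, ?_⟩
      apply e.injective
      apply Fin.ext
      rw [hT _ (by omega)]
    · rcases Nat.eq_or_lt_of_le h with h | h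
      · refine Or.inr (Or.inl ?_)
        apply e.injective
        apply Fin.ext
        rw [ha]; exact h.symm
      · refine Or.inr (Or.inr ?_)
        apply e.injective
        apply Fin.ext
        rw [hb]; omega
  have hab : a ≠ b := by
    intro h
    have := congrArg (fun x => (e x : ℕ)) h
    simp only [ha, hb] at this
    omega
  let E : Vr → ℕ := Encodable.encode
  have hE : Function.Injective E := Encodable.encode_injective
  set α : List (ℕ ⊕ S) := (pt n T 0 n).map (Sum.map E id) with hα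
  have hmem : ∀ v : Vr, Sum.inl (E v) ∈ α ↔ Sum.inl v ∈ pt n T 0 n := by
    intro v
    rw [hα, List.mem_map]
    constructor
    · rintro ⟨x, hx, h⟩
      rcases x with w | t
      · simp only [Sum.map_inl, Sum.inl.injEq] at h
        rw [← hE h]; exact hx
      · simp at h
    · intro h
      exact ⟨_, h, rfl⟩
  have hmem' : ∀ k : ℕ, Sum.inl k ∈ α → ∃ v, k = E v ∧ Sum.inl v ∈ pt n T 0 n := by
    intro k hk
    rw [hα, List.mem_map] at hk
    obtain ⟨x, hx, h⟩ := hk
    rcases x with w | t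
    · simp only [Sum.map_inl, Sum.inl.injEq] at h
      exact ⟨w, h.symm, hx⟩
    · simp at h
  have hterm : ∀ t : S, Sum.inr t ∈ α → ∃ j ≤ n, t = T j := by
    intro t ht
    rw [hα, List.mem_map] at ht
    obtain ⟨x, hx, h⟩ := ht
    rcases x with w | t'
    · simp at h
    · simp only [Sum.map_inr, id, Sum.inr.injEq] at h
      rw [← h]
      exact letters n 0 (by omega) hx
  refine ⟨α, E (Sum.inl 2), (hmem _).2 (y_mem hn0 2), ?_, ?_, ?_⟩
  · refine ⟨a, b, hab, fun h => ?_, fun h => ?_⟩
    · obtain ⟨j, hj, h⟩ := hterm _ h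
      have := congrArg (fun x => (e x : ℕ)) h
      simp only [ha, hT j hj] at this
      omega
    · obtain ⟨j, hj, h⟩ := hterm _ h
      have := congrArg (fun x => (e x : ℕ)) h
      simp only [hb, hT j hj] at this
      omega
  · rintro ⟨β, φ, ψ, hlen, rfl, hψ⟩
    have hex : ∃ k, Sum.inl k ∈ α ∧ φ k = [] := by
      by_contra hno
      push Not at hno
      have h1 := msub_length φ α hno
      have h2 : (morph φ α).length < α.length := hlen
      have h3 : morph φ α = msub φ α := rfl
      rw [h3] at h2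
      omega
    obtain ⟨k, hk, hφ⟩ := hex
    obtain ⟨v, rfl, hv⟩ := hmem' k hk
    have h4 : msub (fun v => msub ψ (φ v)) α = α := by
      rw [← msub_msub]
      exact hψ
    let g : ℕ ⊕ S → Vr ⊕ S := Sum.map (Function.invFun E) id
    have h5 : msub (fun v => (msub ψ (φ (E v))).map g) (pt n T 0 n) = pt n T 0 n := by
      have h6 := msub_map E g (fun a => rfl) (fun v => msub ψ (φ v)) (pt n T 0 n)
      rw [h6, ← hα, h4, hα, List.map_map]
      have : g ∘ Sum.map E id = id := by
        funext x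
        rcases x with w | t
        · simp [g, Function.leftInverse_invFun hE w]
        · simp [g]
      rw [this, List.map_id]
    have h7 := rigid hn0 h5 (vo_pt n 0 (by omega) hv)
    apply h7
    simp [hφ]
  · rintro σ ⟨A, hA1, hA2⟩
    have hother : ∀ k, Sum.inl k ∈ α → k ≠ E (Sum.inl 2) → A ∉ σ k := by
      intro k hk hne hAk
      have := (count_lemma hA1 (tf α)).2 ⟨k, mem_tf.2 hk, hne, hAk⟩
      rw [hA2] at this
      omega
    set σ0 : Vr → List S := fun v => σ (E v) with hσ0
    have h0 : ∃ τ0 : Vr → List S, app τ0 (pt n T 0 n) = app σ0 (pt n T 0 n) ∧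
        τ0 (Sum.inl 2) = [] := by
      by_cases hc : ∃ j ≤ n, T j ∈ app σ0 Y
      · obtain ⟨j, hj, h⟩ := hc
        exact amb_letter hn0 T σ0 j hj h
      · have hYm : ∀ j : Fin 3, (Sum.inl (Sum.inl j) : Vr ⊕ S) ∈ (Y : List (Vr ⊕ S)) := by
          intro j; fin_cases j <;> simp [Y, vy]
        have hlet : ∀ (j : Fin 3) (t : S), t ∈ σ0 (Sum.inl j) → t = a ∨ t = b := by
          intro j t ht
          rcases hall t with ⟨i, hi, rfl⟩ | h
          · exact absurd ⟨i, hi, mem_app (hYm j) ht⟩ hc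
          · exact h
        have hA : A ∈ σ0 (Sum.inl 2) := List.count_pos_iff.1 (by rw [hσ0]; simp only; omega)
        have hn0' : A ∉ σ0 (Sum.inl 0) :=
          hother _ ((hmem _).2 (y_mem hn0 0)) (fun h => by simpa using hE h)
        have hn1' : A ∉ σ0 (Sum.inl 1) :=
          hother _ ((hmem _).2 (y_mem hn0 1)) (fun h => by simpa using hE h)
        obtain ⟨c, hc'⟩ : ∃ c, ∀ t, (t = a ∨ t = b) → t ≠ A → t = c := by
          rcases hlet 2 A hA with rfl | rfl
          · exact ⟨b, fun t h h' => h.resolve_left h'⟩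
          · exact ⟨a, fun t h h' => h.resolve_right h'⟩
        have r0 : σ0 (Sum.inl 0) = List.replicate (σ0 (Sum.inl 0)).length c :=
          List.eq_replicate_of_mem fun t ht =>
            hc' t (hlet 0 t ht) (fun h => hn0' (h ▸ ht))
        have r1 : σ0 (Sum.inl 1) = List.replicate (σ0 (Sum.inl 1)).length c :=
          List.eq_replicate_of_mem fun t ht =>
            hc' t (hlet 1 t ht) (fun h => hn1' (h ▸ ht))
        let τ0 : Vr → List S := fun v => match v with
          | Sum.inl 0 => σ0 (Sum.inl 0) ++ σ0 (Sum.inl 1)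
          | Sum.inl 1 => σ0 (Sum.inl 2)
          | Sum.inl 2 => []
          | Sum.inr x => σ0 (Sum.inr x)
        refine ⟨τ0, app_pt_congr (σ := σ0) (τ := τ0) ?_ (fun x => rfl) n 0, rfl⟩
        have hτ : app τ0 Y = (σ0 (Sum.inl 0) ++ σ0 (Sum.inl 1)) ++ ((σ0 (Sum.inl 0) ++
            σ0 (Sum.inl 1)) ++ (σ0 (Sum.inl 2) ++ σ0 (Sum.inl 2))) := by
          simp [Y, vy, τ0]
        have hσ : app σ0 Y = σ0 (Sum.inl 0) ++ (σ0 (Sum.inl 0) ++ (σ0 (Sum.inl 1) ++
            (σ0 (Sum.inl 1) ++ (σ0 (Sum.inl 2) ++ σ0 (Sum.inl 2))))) := by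
          simp [Y, vy]
        rw [hτ, hσ, r0, r1]
        simp only [← List.append_assoc]
        congr 2
        simp only [List.replicate_append_replicate]
        congr 1
        omega
    obtain ⟨τ0, ht1, ht2⟩ := h0
    refine ⟨fun k => τ0 (Function.invFun E k), ?_, ?_⟩
    · show app _ α = app σ α
      rw [hα, app_map, app_map]
      have : (fun v => τ0 (Function.invFun E (E v))) = τ0 := by
        funext v
        rw [Function.leftInverse_invFun hE v]
      rw [this]
      exact ht1
    · show τ0 (Function.invFun E (E (Sum.inl 2))) = []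
      rw [Function.leftInverse_invFun hE]
      exact ht2

end Pool.Agent.Results.MP_0fc137_lc.AllAmbiguous
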